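import Mathlib
import Pool.Agent.H.MP_0638d8_an.A

set_option autoImplicit false

namespace Pool.Agent.Results.MP_0638d8_an.No

open Set Filter Topology MeasureTheory ProbabilityTheory Function Pool.Agent.H.MP_0638d8_an
open scoped ENNReal

/-- the n-th diameter -/
noncomputable def rhoN {S : Type} [MetricSpace S] (A : Set S) (n : ℕ) : ℝ≥0∞ :=
  ⨆ p : Fin n → A, ENNReal.ofReal
    (∏ z : Fin n × Fin n with z.1 < z.2, dist (p z.1) (p z.2) ^ (2 / (n * (n - 1)) : ℝ))

/-- transfinite diameter -/
noncomputable def rho {S : Type} [MetricSpace S] (A : Set S) : ℝ≥0∞ := limsup (rhoN A) atTop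

/-- essential transfinite diameter -/
noncomputable def ess {S : Type} [MetricSpace S] [MeasurableSpace S] (P : Measure S) (A : Set S) : ℝ≥0∞ :=
  ⨅ (B : Set S) (_ : B ⊆ A) (_ : MeasurableSet B) (_ : P B = P A), rho B

theorem result : ∃ (S : Type) (_ : MetricSpace S) (_ : MeasurableSpace S) (P : Measure S)
    (_ : IsProbabilityMeasure P) (ψ : S → S) (A : Set S),
    (∀ (x : S) (r : ℝ), 0 < r → MeasurableSet (Metric.ball x r) ∧ 0 < P (Metric.ball x r)) ∧
    MeasurePreserving ψ P P ∧
    (∀ B C, MeasurableSet B → MeasurableSet C →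
      Tendsto (fun n => P (ψ^[n] ⁻¹' B ∩ C)) atTop (𝓝 (P B * P C))) ∧
    (∀ B, MeasurableSet B → MeasurableSet (ψ '' B)) ∧ MeasurableSet A ∧ 0 < P A ∧
    rho (univ : Set S) = 1 ∧ (∀ n, rho (ψ^[n] '' A) ≤ 2⁻¹ ∧ ess P (ψ^[n] '' A) ≤ 2⁻¹) := by
  classical
  obtain ⟨f, f1, f2, f3, f4⟩ := layer
  obtain ⟨D, d1, d2, d3, d4, d5, d6⟩ := metric
  have d0 : ∀ x y, 0 ≤ D x y := fun x y => by linarith [d3 x y x, d1 x, d2 x y]
  let e : ℕ → ℝ := fun j => 2⁻¹ ^ (4 * 4 ^ (j + 1) : ℝ)
  have e0 : ∀ j, 0 < e j := fun j => by positivity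
  have e1 : ∀ j, e j ≤ 1 := fun j => Real.rpow_le_one (by norm_num) (by norm_num) (by positivity)
  let d : (ℤ → Bool) → (ℤ → Bool) → ℝ := fun x y => if f x = f y then e (f y) * D x y else 1
  have b0 : ∀ x y, 0 ≤ d x y := fun x y => by
    simp only [d]; split_ifs; exacts [mul_nonneg (e0 _).le (d0 _ _), zero_le_one]
  have b1 : ∀ x y, d x y ≤ 1 := fun x y => by
    simp only [d]; split_ifs; exacts [mul_le_one₀ (e1 _) (d0 _ _) (d5 _ _), le_rfl]
  let M : MetricSpace (ℤ → Bool) :=
    { dist := d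
      dist_self := fun x => by simp [d, d1]
      dist_comm := fun x y => by
        simp only [d, eq_comm (a := f y)]
        split_ifs with h
        · rw [h, d2]
        rfl
      dist_triangle := fun x y z => by
        by_cases h : f x = f y
        · by_cases k : f y = f z
          · simp only [d, h, k, if_true, ← mul_add]
            exact mul_le_mul_of_nonneg_left (d3 _ _ _) (e0 _).le
          linarith [b1 x z, b0 x y, show d y z = 1 from if_neg k]
        linarith [b1 x z, b0 y z, show d x y = 1 from if_neg h]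
      eq_of_dist_eq_zero := fun {x y} h => by
        simp only [d] at h
        split_ifs at h
        · exact d4 _ _ ((mul_eq_zero.1 h).resolve_left (e0 _).ne')
        norm_num at h }
  have im : ∀ B : Set (ℤ → Bool), MeasurableSet B → MeasurableSet (sh '' B) := fun B h => by
    rw [image_eq_preimage_of_inverse (g := fun x i => x (i - 1)) (fun x => by ext; simp [sh]) fun x => by ext; simp [sh]]
    exact h.preimage (by fun_prop)
  have o : IsOpen {x : ℤ → Bool | x 0 = false} :=
    (isOpen_discrete {false}).preimage (continuous_apply (A := fun _ => Bool) 0)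
  have p0 : ∀ {N : ℕ}, 2 ≤ N → (0 : ℝ) < N * (N - 1) := fun {N} h => by
    have : (2 : ℝ) ≤ N := by exact_mod_cast h
    nlinarith
  have u : ∀ {N : ℕ} (p : Fin N → ℤ → Bool) (s : Finset (Fin N × Fin N)), 2 ≤ N →
      ∏ z ∈ s, d (p z.1) (p z.2) ^ (2 / (N * (N - 1)) : ℝ) ≤ 1 := fun p s h => Finset.prod_le_one
    (fun _ _ => Real.rpow_nonneg (b0 _ _) _) fun _ _ => Real.rpow_le_one (b0 _ _) (b1 _ _) (by have := p0 h; positivity)
  have r : ∀ n, @rho _ M (sh^[n] '' {x | x 0 = false}) ≤ 2⁻¹ := fun n => by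
    refine limsup_le_of_le (by isBoundedDefault) ((eventually_ge_atTop (2 ^ (n + 2))).mono fun N h => iSup_le fun p => ?_)
    obtain ⟨j, hj⟩ := pig h (fun i => f (p i)) fun i => by
      obtain ⟨x, hx, e⟩ := (p i).2
      exact f3 _ _ (by rw [← e, it]; simpa using hx)
    have N2 : 2 ≤ N := (Nat.le_self_pow (by omega) 2).trans h
    have := p0 N2
    rw [← Finset.card_product_filter_lt] at hj
    refine (ENNReal.ofReal_le_ofReal (q := 2⁻¹) ?_).trans (by simp [ENNReal.ofReal_inv_of_pos])
    generalize hT : Finset.filter (fun z : Fin N × Fin N => z.1 < z.2) (_ ×ˢ _) = T at hj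
    rw [← Finset.prod_sdiff (s₁ := T) (hT ▸ Finset.filter_subset_filter _ (Finset.subset_univ _))]
    refine (mul_le_of_le_one_left (Finset.prod_nonneg fun _ _ => Real.rpow_nonneg (b0 _ _) _)
      (u (fun i => p i) _ N2)).trans ((Finset.prod_le_prod (g := fun _ => e j ^ (2 / (N * (N - 1)) : ℝ))
        (fun _ _ => Real.rpow_nonneg (b0 _ _) _) fun z hz => Real.rpow_le_rpow (b0 _ _) ?_ (by positivity)).trans ?_)
    · simp only [← hT, Finset.mem_filter, Finset.mem_product, Finset.mem_univ, true_and] at hz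
      refine (if_pos (hz.1.1.trans hz.1.2.symm)).trans_le ?_
      rw [hz.1.2]
      exact mul_le_of_le_one_right (e0 _).le (d5 _ _)
    rw [Finset.prod_const, ← Real.rpow_natCast, ← Real.rpow_mul (e0 _).le, ← Real.rpow_mul (by norm_num)]
    refine (Real.rpow_le_rpow_of_exponent_ge (by norm_num) (by norm_num) ?_).trans_eq (Real.rpow_one _)
    rw [div_mul_eq_mul_div, ← mul_div_assoc, one_le_div this]
    nlinarith
  refine ⟨ℤ → Bool, M, inferInstance, .infinitePi fun _ => uniformOn univ, inferInstance, sh, {x | x 0 = false},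
    fun x r r0 => ⟨measurableSet_lt (f := (d · x)) (.ite (f1 (measurableSet_singleton _))
      ((d6 x).measurable.const_mul _) measurable_const) measurable_const, ?_⟩, mp _, fun B C => mix _, im,
      o.measurableSet, op o ⟨fun _ => false, rfl⟩, ?_, fun n => ⟨r n, ?_⟩⟩
  · have w : IsOpen {y | D y x < r} := isOpen_lt (d6 x) continuous_const
    refine (op (w.inter isOpen_interior) (mem_closure_iff.1 (f4 x) _ w (by simpa [d1]))).trans_le
      (measure_mono fun y ⟨y1, y2⟩ => ?_)
    exact (if_pos (interior_subset y2)).trans_lt ((mul_le_of_le_one_left (d0 _ _) (e1 _)).trans_lt y1)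
  · refine (limsup_congr ((eventually_ge_atTop 2).mono fun N h => le_antisymm (iSup_le fun p =>
      ENNReal.ofReal_le_one.2 (u (fun i => p i) _ h)) ?_)).trans (limsup_const 1)
    refine le_iSup_of_le (fun i => ⟨surjInv f2 i, trivial⟩) (ENNReal.one_le_ofReal.2
      (Finset.prod_eq_one fun z hz => ?_).ge)
    refine (congrArg (· ^ _) (if_neg ?_)).trans (Real.one_rpow _)
    simpa only [surjInv_eq] using (Fin.lt_def.1 (Finset.mem_filter.1 hz).2).ne
  refine iInf₂_le_of_le _ Subset.rfl (iInf₂_le_of_le ?_ rfl (r n))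
  induction n with
  | zero => simpa using o.measurableSet
  | succ n i => rw [iterate_succ', image_comp]; exact im _ i

end Pool.Agent.Results.MP_0638d8_an.No
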